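import Pool.Agent.W223.AK.Basic

set_option autoImplicit false
set_option linter.unusedSectionVars false

/-!
Energy of a product set over a number field (`StmtJK`).
-/

namespace W54.AK

open NumberField IsDedekindDomain Finset Pool.Agent.H691R3 Pool.Agent.W223.AK

variable {K : Type} [Field K] [NumberField K]

/-- fibres of the sum map -/
lemma fib {h : ℕ} {ε D b : ℝ} (hε : 0 < ε) (hD : 0 < D)
    (hFAC : ∀ (a : Idl K) (E : Finset (Fin h → Idl K)),
      (∀ x ∈ E, ∑ j, x j = a) → (E.card : ℝ) ≤ D * Real.exp (ε * len a))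
    (Q : Finset ((Idl K × Idl K) × ((Fin h → Idl K) × (Fin h → Idl K))))
    (Q' : Finset ((Idl K × Idl K) × (Idl K × Idl K)))
    (hQ : ∀ t ∈ Q, (t.1, (∑ m, t.2.1 m, ∑ m, t.2.2 m)) ∈ Q')
    (hb : ∀ t ∈ Q', len t.2.1 ≤ b ∧ len t.2.2 ≤ b) :
    (Q.card : ℝ) ≤ (D * Real.exp (ε * b)) ^ 2 * (Q'.card : ℝ) := by
  classical
  set B := (D * Real.exp (ε * b)) ^ 2 with hB
  have hB0 : 0 ≤ B := by positivity
  have hfib : ∀ a ∈ Q', (Q.filter fun t => (t.1, (∑ m, t.2.1 m, ∑ m, t.2.2 m)) = a).card ≤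
      ⌊B⌋₊ := by
    intro a ha
    obtain ⟨hb1, hb2⟩ := hb a ha
    set F := Q.filter fun t => (t.1, (∑ m, t.2.1 m, ∑ m, t.2.2 m)) = a with hF
    set E₁ := F.image fun t => t.2.1 with hE₁
    set E₂ := F.image fun t => t.2.2 with hE₂
    have hsub : F ⊆ {a.1} ×ˢ (E₁ ×ˢ E₂) := by
      intro t ht
      rw [Finset.mem_product, Finset.mem_product, Finset.mem_singleton]
      refine ⟨?_, Finset.mem_image_of_mem _ ht, Finset.mem_image_of_mem _ ht⟩
      exact congrArg Prod.fst (Finset.mem_filter.mp ht).2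
    have hc := Finset.card_le_card hsub
    rw [Finset.card_product, Finset.card_product, Finset.card_singleton, one_mul] at hc
    have h1 : (E₁.card : ℝ) ≤ D * Real.exp (ε * b) := by
      refine (hFAC a.2.1 E₁ ?_).trans ?_
      · intro x hx
        obtain ⟨t, ht, rfl⟩ := Finset.mem_image.mp hx
        exact congrArg (fun p => p.2.1) (Finset.mem_filter.mp ht).2
      · gcongr
    have h2 : (E₂.card : ℝ) ≤ D * Real.exp (ε * b) := by
      refine (hFAC a.2.2 E₂ ?_).trans ?_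
      · intro x hx
        obtain ⟨t, ht, rfl⟩ := Finset.mem_image.mp hx
        exact congrArg (fun p => p.2.2) (Finset.mem_filter.mp ht).2
      · gcongr
    refine Nat.le_floor ?_
    have hc' : (F.card : ℝ) ≤ E₁.card * E₂.card := by exact_mod_cast hc
    refine hc'.trans ?_
    rw [hB, sq]
    exact mul_le_mul h1 h2 (Nat.cast_nonneg _) (by positivity)
  have h3 : Q.card ≤ ⌊B⌋₊ * Q'.card :=
    Finset.card_le_mul_card_image_of_maps_to (f := fun t => (t.1, (∑ m, t.2.1 m, ∑ m, t.2.2 m)))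
      hQ _ hfib
  have h4 : (Q.card : ℝ) ≤ (⌊B⌋₊ : ℝ) * Q'.card := by exact_mod_cast h3
  exact h4.trans (mul_le_mul_of_nonneg_right (Nat.floor_le hB0) (Nat.cast_nonneg _))

section G

variable {S : Finset (Pr K)} {ϖ : Pr K → K} {C : ℝ}

/-- `gen a` as a unit -/
noncomputable def gu (hU : Unif S ϖ C) (a : Idl K) : Kˣ := Units.mk0 (gen ϖ a) (gen_ne hU a)

/-- the map to the finite group -/
noncomputable def gm (hU : Unif S ϖ C) {G₀ : Type} [CommGroup G₀] (θ : Kˣ →* G₀)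
    (W : Finset (InfinitePlace K)) (M : InfinitePlace K → ℕ) (N : ℕ) (i : ℕ) (a : Idl K) :
    Additive G₀ × ((w : W) → ZMod N × ZMod (M w)) :=
  (Additive.ofMul (θ (gu hU a ^ (i + 1))), fun w =>
    (((ra (M w) (w.1.embedding (gen ϖ a ^ (i + 1))) : ℤ) : ZMod N),
      rb (M w) (w.1.embedding (gen ϖ a ^ (i + 1)))))

/-- the shift -/
noncomputable def sh {G₀ : Type} [CommGroup G₀] (θ : Kˣ →* G₀)
    (W : Finset (InfinitePlace K)) (M : InfinitePlace K → ℕ) (N : ℕ) (y₀ : Kˣ) (e : W → ℤ × ℤ) :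
    Additive G₀ × ((w : W) → ZMod N × ZMod (M w)) :=
  (Additive.ofMul (θ y₀)⁻¹, fun w =>
    (((((e w).1 - ra (M w) (w.1.embedding (y₀ : K))) : ℤ) : ZMod N),
      (((e w).2 : ℤ) : ZMod (M w)) - rb (M w) (w.1.embedding (y₀ : K))))

lemma dev (hU : Unif S ϖ C) {G₀ : Type} [CommGroup G₀] (θ : Kˣ →* G₀)
    (W : Finset (InfinitePlace K)) (M : InfinitePlace K → ℕ) (N : ℕ) {n : ℕ} {c : ℤ}
    (t₁ t₂ : Fin n → Idl K) (y₀ : Kˣ)
    (h1 : θ (y₀ * ∏ i, (gu hU (t₁ i) / gu hU (t₂ i)) ^ ((i : ℕ) + 1)) = 1)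
    (h2 : ∀ w ∈ W, ∃ a b : ℤ, |a| ≤ c ∧ |b| ≤ c ∧
        ra (M w) (w.embedding (y₀ : K)) +
          ∑ i : Fin n, ra (M w) (w.embedding (gen ϖ (t₁ i) ^ ((i : ℕ) + 1))) =
          ∑ i : Fin n, ra (M w) (w.embedding (gen ϖ (t₂ i) ^ ((i : ℕ) + 1))) + a ∧
        rb (M w) (w.embedding (y₀ : K)) +
          ∑ i : Fin n, rb (M w) (w.embedding (gen ϖ (t₁ i) ^ ((i : ℕ) + 1))) =
          ∑ i : Fin n, rb (M w) (w.embedding (gen ϖ (t₂ i) ^ ((i : ℕ) + 1))) + (b : ZMod (M w))) :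
    ∃ e : W → ℤ × ℤ, (∀ w, |(e w).1| ≤ c ∧ |(e w).2| ≤ c) ∧
      ∑ i : Fin n, gm hU θ W M N i (t₁ i) = sh θ W M N y₀ e + ∑ i : Fin n, gm hU θ W M N i (t₂ i) := by
  choose! a b ha hb hra hrb using h2
  refine ⟨fun w => (a w, b w), fun w => ⟨ha w w.2, hb w w.2⟩, ?_⟩
  unfold gm sh
  refine Prod.ext ?_ ?_
  · simp only [Prod.fst_add, Prod.fst_sum]
    rw [← ofMul_prod, ← ofMul_prod, ← ofMul_mul]
    congr 1
    rw [map_mul, map_prod] at h1
    simp only [map_pow, map_div] at h1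
    simp only [map_pow]
    rw [eq_inv_mul_iff_mul_eq]
    have h3 : ∏ i : Fin n, (θ (gu hU (t₁ i)) / θ (gu hU (t₂ i))) ^ ((i : ℕ) + 1) =
        (∏ i : Fin n, θ (gu hU (t₁ i)) ^ ((i : ℕ) + 1)) /
          ∏ i : Fin n, θ (gu hU (t₂ i)) ^ ((i : ℕ) + 1) := by
      rw [← Finset.prod_div_distrib]
      exact Finset.prod_congr rfl fun i _ => div_pow _ _ _
    rw [h3, ← mul_div_assoc, div_eq_one] at h1
    exact h1
  · simp only [Prod.snd_add, Prod.snd_sum]
    funext w
    rw [Pi.add_apply, Finset.sum_apply, Finset.sum_apply]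
    refine Prod.ext ?_ ?_
    · simp only [Prod.fst_add, Prod.fst_sum]
      have h3 := hra w w.2
      have h4 : ∑ i : Fin n, ra (M w) (w.1.embedding (gen ϖ (t₁ i) ^ ((i : ℕ) + 1))) =
          a w - ra (M w) (w.1.embedding (y₀ : K)) +
          ∑ i : Fin n, ra (M w) (w.1.embedding (gen ϖ (t₂ i) ^ ((i : ℕ) + 1))) := by
        linarith
      have h5 := congrArg (fun z : ℤ => (z : ZMod N)) h4
      push_cast at h5
      push_cast
      exact h5
    · simp only [Prod.snd_add, Prod.snd_sum]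
      have h3 := hrb w w.2
      linear_combination h3

/-- the consequences of an equality of sums -/
lemma mom (hU : Unif S ϖ C) {G₀ : Type} [CommGroup G₀] (θ : Kˣ →* G₀)
    (W : Finset (InfinitePlace K)) (M : InfinitePlace K → ℕ) (N : ℕ) {h : ℕ} (i j : ℕ)
    (x x' : Idl K) (u u' : Fin h → Idl K)
    (he : gm hU θ W M N i x + ∑ m, gm hU θ W M N j (u m) =
      gm hU θ W M N i x' + ∑ m, gm hU θ W M N j (u' m)) :
    θ ((gu hU x / gu hU x') ^ (i + 1) * (gu hU (∑ m, u m) / gu hU (∑ m, u' m)) ^ (j + 1)) = 1 ∧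
    ∀ w ∈ W,
      (((ra (M w) (w.embedding (gen ϖ x ^ (i + 1))) +
          ∑ m, ra (M w) (w.embedding (gen ϖ (u m) ^ (j + 1))) : ℤ) : ZMod N) =
        ((ra (M w) (w.embedding (gen ϖ x' ^ (i + 1))) +
          ∑ m, ra (M w) (w.embedding (gen ϖ (u' m) ^ (j + 1))) : ℤ) : ZMod N)) ∧
      (rb (M w) (w.embedding (gen ϖ x ^ (i + 1))) +
          ∑ m, rb (M w) (w.embedding (gen ϖ (u m) ^ (j + 1))) =
        rb (M w) (w.embedding (gen ϖ x' ^ (i + 1))) +
          ∑ m, rb (M w) (w.embedding (gen ϖ (u' m) ^ (j + 1)))) := by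
  have hgu : ∀ v : Fin h → Idl K, gu hU (∑ m, v m) = ∏ m, gu hU (v m) := by
    intro v
    apply Units.ext
    unfold gu
    rw [Units.coe_prod]
    simp only [Units.val_mk0]
    exact gen_sum ϖ _ _
  constructor
  · have h1 := congrArg (fun p => Additive.toMul p.1) he
    unfold gm at h1
    simp only [Prod.fst_add, Prod.fst_sum] at h1
    rw [← ofMul_prod, ← ofMul_prod, ← ofMul_mul, ← ofMul_mul] at h1
    simp only [toMul_ofMul, map_pow] at h1
    rw [hgu, hgu]
    simp only [map_mul, map_pow, map_div, map_prod]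
    rw [Finset.prod_pow, Finset.prod_pow] at h1
    rw [div_pow, div_pow, div_mul_div_comm, h1, div_self']
  · intro w hw
    constructor
    · have h1 := congrArg (fun p => (p.2 ⟨w, hw⟩).1) he
      unfold gm at h1
      simp only [Prod.snd_add, Prod.snd_sum, Pi.add_apply, Finset.sum_apply, Prod.fst_add,
        Prod.fst_sum] at h1
      push_cast
      exact h1
    · have h1 := congrArg (fun p => (p.2 ⟨w, hw⟩).2) he
      unfold gm at h1
      simp only [Prod.snd_add, Prod.snd_sum, Pi.add_apply, Finset.sum_apply] at h1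
      exact h1

end G

section Local

lemma prime_a {v : Pr K} {A s : ℝ} {k : ℕ} (hk : k = ⌊(s - A) / Real.log (Nv v)⌋₊) (hk0 : k ≠ 0) :
    Real.exp (A - s) ≤ (Nv v) ^ (-(k : ℤ)) := by
  have hN := log_Nv_pos v
  have h1 : (k : ℝ) ≤ (s - A) / Real.log (Nv v) := by
    rw [hk]
    refine Nat.floor_le ?_
    by_contra hneg
    push Not at hneg
    rw [Nat.floor_of_nonpos hneg.le] at hk
    exact hk0 hk
  rw [le_div_iff₀ hN] at h1
  have h2 : (Nv v) ^ (-(k : ℤ)) = Real.exp (-(k * Real.log (Nv v))) := by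
    rw [zpow_neg, zpow_natCast, Real.exp_neg, mul_comm, Real.exp_mul, Real.exp_log (Nv_pos v),
      Real.rpow_natCast]
  rw [h2]
  exact Real.exp_le_exp.mpr (by linarith)

lemma prime_b {v : Pr K} {A s : ℝ} {k : ℕ} (hk : k = ⌊(s - A) / Real.log (Nv v)⌋₊) :
    (Nv v) ^ (-(k : ℤ)) ≤ Real.exp (A + Real.log (Nv v) - s) := by
  have hN := log_Nv_pos v
  have h1 : (s - A) / Real.log (Nv v) < k + 1 := by
    rw [hk]
    exact Nat.lt_floor_add_one _
  rw [div_lt_iff₀ hN] at h1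
  have h2 : (Nv v) ^ (-(k : ℤ)) = Real.exp (-(k * Real.log (Nv v))) := by
    rw [zpow_neg, zpow_natCast, Real.exp_neg, mul_comm, Real.exp_mul, Real.exp_log (Nv_pos v),
      Real.rpow_natCast]
  rw [h2]
  exact Real.exp_le_exp.mpr (by linarith)

lemma inf_a {m s : ℝ} (hs : 0 ≤ s) (hm : 1 ≤ m) {M : ℕ} (hM : M = ⌈Real.exp (s / m)⌉₊) :
    1 ≤ M ∧ Real.exp (s / m) ≤ M ∧ (M : ℝ) ≤ 2 * Real.exp (s / m) := by
  have h1 : 1 ≤ Real.exp (s / m) := Real.one_le_exp (by positivity)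
  refine ⟨?_, ?_, ?_⟩
  · rw [hM]
    exact Nat.one_le_iff_ne_zero.mpr (Nat.ceil_pos.mpr (by positivity)).ne'
  · rw [hM]
    exact Nat.le_ceil _
  · rw [hM]
    have := Nat.ceil_lt_add_one (a := Real.exp (s / m)) (by positivity)
    linarith

lemma inf_b {m s A x : ℝ} (hm : 1 ≤ m) (hA : 0 ≤ A) (hx : 0 ≤ x) {M : ℕ} (hM1 : 1 ≤ M)
    (hM2 : (M : ℝ) ≤ 2 * Real.exp (s / m)) (h : x ^ m ≤ Real.exp (A - s)) :
    x ≤ 2 * Real.exp A / M := by
  have h1 : x ≤ Real.exp ((A - s) / m) := by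
    have h2 : (x ^ m) ^ (1 / m) ≤ (Real.exp (A - s)) ^ (1 / m) :=
      Real.rpow_le_rpow (by positivity) h (by positivity)
    rw [← Real.rpow_mul hx, mul_one_div_cancel (by positivity), Real.rpow_one, ← Real.exp_mul,
      mul_one_div] at h2
    exact h2
  have h3 : (A - s) / m ≤ A - s / m := by
    rw [sub_div]
    have : A / m ≤ A := div_le_self hA hm
    linarith
  have hM0 : (0 : ℝ) < M := by exact_mod_cast hM1
  rw [le_div_iff₀ hM0]
  calc x * M ≤ Real.exp (A - s / m) * (2 * Real.exp (s / m)) :=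
        mul_le_mul (h1.trans (Real.exp_le_exp.mpr h3)) hM2 hM0.le (by positivity)
    _ = 2 * Real.exp A := by
        rw [Real.exp_sub]
        field_simp

lemma inf_c {m s x : ℝ} (hm0 : 0 < m) (hm : m ≤ 2) (hx : 0 ≤ x) {c M : ℕ}
    (hM : Real.exp (s / m) ≤ M) (h : x ≤ c / M) :
    x ^ m ≤ Real.exp (2 * Real.log (c + 1) - s) := by
  have h1 : x ≤ (c + 1) * Real.exp (-(s / m)) := by
    refine h.trans ?_
    rw [Real.exp_neg, ← div_eq_mul_inv]
    gcongr
    linarith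
  have h2 : x ^ m ≤ ((c + 1) * Real.exp (-(s / m))) ^ m := Real.rpow_le_rpow hx h1 hm0.le
  refine h2.trans ?_
  rw [Real.mul_rpow (by positivity) (by positivity), ← Real.exp_mul, sub_eq_add_neg, Real.exp_add]
  have h3 : -(s / m) * m = -s := by
    field_simp
  rw [h3]
  refine mul_le_mul_of_nonneg_right ?_ (by positivity)
  have h4 : ((c : ℝ) + 1) ^ m ≤ ((c : ℝ) + 1) ^ (2 : ℝ) :=
    Real.rpow_le_rpow_of_exponent_le (by linarith [Nat.cast_nonneg (α := ℝ) c]) hm
  refine h4.trans (le_of_eq ?_)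
  rw [mul_comm (2 : ℝ), Real.exp_mul, Real.exp_log (by positivity)]

lemma one_le_mult (w : InfinitePlace K) : (1 : ℝ) ≤ (w.mult : ℝ) := by
  exact_mod_cast InfinitePlace.mult_pos (w := w)

lemma mult_le_two (w : InfinitePlace K) : (w.mult : ℝ) ≤ 2 := by
  unfold InfinitePlace.mult
  split_ifs <;> norm_num

lemma int_eq_of_zmod {N : ℕ} {a b : ℤ} {B : ℕ} (hN : N = 2 * B + 1) (ha : |a| ≤ B) (hb : |b| ≤ B)
    (h : (a : ZMod N) = (b : ZMod N)) : a = b := by
  rw [ZMod.intCast_eq_intCast_iff_dvd_sub] at h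
  have h1 : b - a = 0 := by
    refine Int.eq_zero_of_abs_lt_dvd h ?_
    rw [hN]
    have h3 := abs_sub b a
    push_cast
    linarith
  linarith

end Local

section Main

variable {S : Finset (Pr K)} {ϖ : Pr K → K} {C : ℝ}

lemma fv_gen_cop (hU : Unif S ϖ C) {a f : Idl K} (ha : OffS S a) (hc : Cop a f) {v : Pr K}
    (hv : v ∉ S) (hfv : f v ≠ 0) : fv v (gen ϖ a) = 1 := by
  rw [fv_gen hU ha hv, (hc v).resolve_right hfv]
  simp

/-- size of the quotient at a prime of `S` -/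
lemma size_quot (hU : Unif S ϖ C) {x x' U U' : Idl K} (hx : OffS S x) (hx' : OffS S x')
    (hUo : OffS S U) (hUo' : OffS S U') {a b X : ℝ} (h1 : len x ≤ a) (h2 : len x' ≤ a)
    (h3 : len U ≤ b) (h4 : len U' ≤ b) (hab : a + b ≤ 2 * X) {n i j : ℕ} (hi : i + 1 ≤ n)
    (hj : j + 1 ≤ n) {v : Pr K} (hv : v ∈ S) :
    |Real.log (fv v ((gen ϖ x / gen ϖ x') ^ (i + 1) * (gen ϖ U / gen ϖ U') ^ (j + 1)))| ≤
      4 * n * C * X := by
  have hC := hU.one_le
  have key : ∀ a : Idl K, OffS S a → |Real.log (fv v (gen ϖ a))| ≤ C * len a := by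
    intro a ha
    have := spec_gen hU ha ((mem_Spl_inr S v).mpr hv)
    simpa using this
  have hne : ∀ a : Idl K, fv v (gen ϖ a) ≠ 0 := fun a => ((fv v).pos (gen_ne hU a)).ne'
  rw [map_mul, map_pow, map_pow, map_div₀, map_div₀, Real.log_mul
    (pow_ne_zero _ (div_ne_zero (hne _) (hne _))) (pow_ne_zero _ (div_ne_zero (hne _) (hne _))),
    Real.log_pow, Real.log_pow, Real.log_div (hne _) (hne _), Real.log_div (hne _) (hne _)]
  have k1 : |Real.log (fv v (gen ϖ x)) - Real.log (fv v (gen ϖ x'))| ≤ 2 * C * a := by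
    have e1 := key x hx
    have e2 := key x' hx'
    have e3 := abs_sub (Real.log (fv v (gen ϖ x))) (Real.log (fv v (gen ϖ x')))
    nlinarith
  have k2 : |Real.log (fv v (gen ϖ U)) - Real.log (fv v (gen ϖ U'))| ≤ 2 * C * b := by
    have e1 := key U hUo
    have e2 := key U' hUo'
    have e3 := abs_sub (Real.log (fv v (gen ϖ U))) (Real.log (fv v (gen ϖ U')))
    nlinarith
  have hn1 : (((i + 1 : ℕ) : ℝ)) ≤ n := by exact_mod_cast hi
  have hn2 : (((j + 1 : ℕ) : ℝ)) ≤ n := by exact_mod_cast hj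
  refine (abs_add_le _ _).trans ?_
  rw [abs_mul, abs_mul, Nat.abs_cast, Nat.abs_cast]
  have m1 : ((i + 1 : ℕ) : ℝ) * |Real.log (fv v (gen ϖ x)) - Real.log (fv v (gen ϖ x'))| ≤
      n * (2 * C * a) := mul_le_mul hn1 k1 (abs_nonneg _) (Nat.cast_nonneg _)
  have m2 : ((j + 1 : ℕ) : ℝ) * |Real.log (fv v (gen ϖ U)) - Real.log (fv v (gen ϖ U'))| ≤
      n * (2 * C * b) := mul_le_mul hn2 k2 (abs_nonneg _) (Nat.cast_nonneg _)
  have m3 : (n : ℝ) * (2 * C * a) + n * (2 * C * b) ≤ 4 * n * C * X := by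
    have : (n : ℝ) * (2 * C * a) + n * (2 * C * b) = (2 * n * C) * (a + b) := by ring
    rw [this]
    have h5 : (0 : ℝ) ≤ 2 * n * C := by positivity
    nlinarith
  linarith

theorem jk (hU : Unif S ϖ C) (hT : StmtTW S ϖ) (hA : StmtABSJ) (hG : StmtGRP K)
    (hR : StmtRND) (hC : StmtCNT K) (hF : StmtFAC K) : StmtJK S ϖ := by
  classical
  intro n hSn ε A hε hA0
  obtain ⟨H, hH⟩ := hA n (ε / 2) (half_pos hε)
  choose CR hCR using fun h : ℕ => hR (h + 1) 0 le_rfl
  obtain ⟨C2, hC2⟩ := hR n (2 * Real.exp A) (by positivity)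
  obtain ⟨C1, hC1⟩ : ∃ C1 : ℕ, C1 = ∑ h ∈ range (H + 1), CR h := ⟨_, rfl⟩
  have hCR1 : ∀ h, h ≤ H → CR h ≤ C1 := by
    intro h hh
    rw [hC1]
    exact Finset.single_le_sum (f := CR) (fun i _ => Nat.zero_le _)
      (Finset.mem_range.mpr (by omega))
  obtain ⟨LS, hLS⟩ : ∃ LS : ℝ, LS = ∑ v ∈ S, Real.log (Nv v) := ⟨_, rfl⟩
  have hLS0 : 0 ≤ LS := by
    rw [hLS]
    exact Finset.sum_nonneg fun v _ => (log_Nv_pos v).le
  have hLSv : ∀ v ∈ S, Real.log (Nv v) ≤ LS := by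
    intro v hv
    rw [hLS]
    exact Finset.single_le_sum (f := fun v => Real.log (Nv v)) (fun v _ => (log_Nv_pos v).le) hv
  have hlogC : 0 ≤ Real.log ((C1 : ℝ) + 1) :=
    Real.log_nonneg (by linarith [Nat.cast_nonneg (α := ℝ) C1])
  obtain ⟨A1, hA1⟩ : ∃ A1 : ℝ, A1 = A + LS + 2 * Real.log (C1 + 1) := ⟨_, rfl⟩
  have hA10 : 0 ≤ A1 := by rw [hA1]; positivity
  obtain ⟨ε₃, hε₃⟩ : ∃ ε₃ : ℝ, ε₃ = ε / (12 * (2 * n + 1)) := ⟨_, rfl⟩
  have hε₃0 : 0 < ε₃ := by rw [hε₃]; positivity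
  have hSg : ∀ i : Fin n, SGood S ((i : ℕ) + 1) := by
    intro i k hk1 hk2 v hv
    exact hSn k hk1 (hk2.trans i.2) v hv
  choose DT hDT0 hDT using fun i j : Fin n => hT ((i : ℕ) + 1) ((j : ℕ) + 1) (by omega) (by omega)
    (hSg i) (hSg j) ε₃ A1 hε₃0 hA10
  choose DF hDF0 hDF using fun h : ℕ => hF h ε₃ hε₃0
  obtain ⟨DC, hDC0, hDC⟩ := hC ε₃ hε₃0
  obtain ⟨Dm, hDm⟩ : ∃ Dm : ℝ, Dm = 1 + DC + ∑ i : Fin n, ∑ j : Fin n, ∑ h ∈ range (H + 1),
    DF h ^ 2 * DT i j := ⟨_, rfl⟩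
  have hsum0 : 0 ≤ ∑ i : Fin n, ∑ j : Fin n, ∑ h ∈ range (H + 1), DF h ^ 2 * DT i j :=
    Finset.sum_nonneg fun i _ => Finset.sum_nonneg fun j _ => Finset.sum_nonneg fun h _ =>
      mul_nonneg (sq_nonneg _) (hDT0 i j).le
  have hDm1 : 1 ≤ Dm := by rw [hDm]; linarith
  have hDmC : DC ≤ Dm := by rw [hDm]; linarith
  have hDmT : ∀ (i j : Fin n) (h : ℕ), h ≤ H → DF h ^ 2 * DT i j ≤ Dm := by
    intro i j h hh
    have e1 : DF h ^ 2 * DT i j ≤ ∑ h ∈ range (H + 1), DF h ^ 2 * DT i j :=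
      Finset.single_le_sum (f := fun h => DF h ^ 2 * DT i j)
        (fun h _ => mul_nonneg (sq_nonneg _) (hDT0 i j).le) (Finset.mem_range.mpr (by omega))
    have e2 : ∑ h ∈ range (H + 1), DF h ^ 2 * DT i j ≤
        ∑ j : Fin n, ∑ h ∈ range (H + 1), DF h ^ 2 * DT i j :=
      Finset.single_le_sum (f := fun j => ∑ h ∈ range (H + 1), DF h ^ 2 * DT i j)
        (fun j _ => Finset.sum_nonneg fun h _ => mul_nonneg (sq_nonneg _) (hDT0 i j).le)
        (Finset.mem_univ j)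
    have e3 : ∑ j : Fin n, ∑ h ∈ range (H + 1), DF h ^ 2 * DT i j ≤
        ∑ i : Fin n, ∑ j : Fin n, ∑ h ∈ range (H + 1), DF h ^ 2 * DT i j :=
      Finset.single_le_sum (f := fun i => ∑ j : Fin n, ∑ h ∈ range (H + 1), DF h ^ 2 * DT i j)
        (fun i _ => Finset.sum_nonneg fun j _ => Finset.sum_nonneg fun h _ =>
          mul_nonneg (sq_nonneg _) (hDT0 i j).le) (Finset.mem_univ i)
    rw [hDm]
    linarith
  obtain ⟨c₀, hc₀⟩ : ∃ c₀ : ℝ, c₀ = 2 * (A + Real.log 4) := ⟨_, rfl⟩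
  have hlog4 : 0 < Real.log 4 := Real.log_pos (by norm_num)
  have hc₀0 : 0 ≤ c₀ := by rw [hc₀]; positivity
  obtain ⟨K0, hK0⟩ : ∃ K0 : ℝ, K0 = (Spl S).card * (c₀ + A + LS) := ⟨_, rfl⟩
  have hK00 : 0 ≤ K0 := by rw [hK0]; positivity
  refine ⟨(2 * C2 + 1) ^ (2 * Fintype.card (InfinitePlace K)) * Dm ^ (2 * n + 1) * Real.exp K0,
    by positivity, ?_⟩
  intro X f V σ ν y₀ Q hX hf hfX hV hσ hν hνX hy₀ hQ
  -- the data
  obtain ⟨m, hm⟩ : ∃ m : Pr K → ℕ, ∀ v, m v = if v ∈ S ∧ (Sum.inr v : Pl K) ∈ V then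
    ⌊(σ (Sum.inr v) - A) / Real.log (Nv v)⌋₊ else 0 := ⟨_, fun v => rfl⟩
  have hmS : ∀ v, m v ≠ 0 → v ∈ S ∧ (Sum.inr v : Pl K) ∈ V := by
    intro v hv
    by_contra hcon
    rw [hm, if_neg hcon] at hv
    exact hv rfl
  obtain ⟨f', hf'⟩ : ∃ f' : Idl K, ∀ v, f' v = f v + m v := by
    refine ⟨Finsupp.onFinset (f.support ∪ S) (fun v => f v + m v) ?_, fun v => rfl⟩
    intro v hv
    rw [Finset.mem_union, Finsupp.mem_support_iff]
    by_contra hcon
    push Not at hcon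
    apply hv
    by_contra h
    have h1 : m v ≠ 0 := by
      intro h2
      exact h (by rw [hcon.1, h2, add_zero])
    exact hcon.2 (hmS v h1).1
  obtain ⟨M, hM⟩ : ∃ M : InfinitePlace K → ℕ,
    ∀ w, M w = ⌈Real.exp (σ (Sum.inl w) / (w.mult : ℝ))⌉₊ := ⟨_, fun w => rfl⟩
  set W : Finset (InfinitePlace K) := Finset.univ.filter fun w =>
    (Sum.inl w : Pl K) ∈ V ∧ c₀ ≤ σ (Sum.inl w) with hW
  set V' : Finset (Pl K) := V.filter fun v => Sum.elim (fun w : InfinitePlace K =>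
    c₀ ≤ σ (Sum.inl w)) (fun v : Pr K => m v ≠ 0) v with hV'
  have hV'V : V' ⊆ V := Finset.filter_subset _ _
  have hMpos : ∀ w, 1 ≤ M w := by
    intro w
    rw [hM]
    exact Nat.one_le_iff_ne_zero.mpr (Nat.ceil_pos.mpr (by positivity)).ne'
  have hMW : ∀ w ∈ W, Real.exp (σ (Sum.inl w) / (w.mult : ℝ)) ≤ M w ∧
      (M w : ℝ) ≤ 2 * Real.exp (σ (Sum.inl w) / (w.mult : ℝ)) := by
    intro w hw
    have hw' := (Finset.mem_filter.mp hw).2
    exact (inf_a (hσ _ hw'.1) (one_le_mult w) (hM w)).2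
  have hlen : lenM f V σ ≤ lenM f V' σ + K0 := by
    unfold lenM
    have h1 : ∑ v ∈ V, σ v ≤ ∑ v ∈ V, ((if v ∈ V' then σ v else 0) + (c₀ + A + LS)) := by
      refine Finset.sum_le_sum fun v hv => ?_
      split_ifs with h
      · linarith
      · rw [hV', Finset.mem_filter, not_and] at h
        have h2 := h hv
        rcases v with w | v
        · simp only [Sum.elim_inl, not_le] at h2
          linarith
        · simp only [Sum.elim_inr, not_not] at h2
          have hvS : v ∈ S := (mem_Spl_inr S v).mp (hV hv)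
          rw [hm, if_pos ⟨hvS, hv⟩, Nat.floor_eq_zero, div_lt_one (log_Nv_pos v)] at h2
          have := hLSv v hvS
          linarith
    rw [Finset.sum_add_distrib, ← Finset.sum_filter, Finset.sum_const, nsmul_eq_mul] at h1
    have h2 : V.filter (fun v => v ∈ V') = V' := by
      ext v
      rw [Finset.mem_filter]
      exact ⟨fun h => h.2, fun h => ⟨hV'V h, h⟩⟩
    rw [h2] at h1
    have h3 : (V.card : ℝ) * (c₀ + A + LS) ≤ K0 := by
      rw [hK0]
      refine mul_le_mul_of_nonneg_right ?_ (by positivity)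
      exact_mod_cast Finset.card_le_card hV
    linarith
  -- the components
  obtain ⟨Ac, hAc⟩ : ∃ Ac : Fin n → Finset (Idl K), ∀ i, Ac i =
    Q.image (fun t => t.1 i) ∪ Q.image (fun t => t.2 i) := ⟨_, fun i => rfl⟩
  have hAc1 : ∀ i, ∀ a ∈ Ac i, OffS S a ∧ Cop a f ∧ len a ≤ ν i := by
    intro i a ha
    rw [hAc, Finset.mem_union, Finset.mem_image, Finset.mem_image] at ha
    rcases ha with ⟨t, ht, rfl⟩ | ⟨t, ht, rfl⟩
    · exact (hQ t ht).1 i
    · exact (hQ t ht).2.1 i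
  have hνi : ∀ i, ν i ≤ X := fun i =>
    (Finset.single_le_sum (f := ν) (fun i _ => hν i) (Finset.mem_univ i)).trans hνX
  -- the group
  obtain ⟨N₁, hN₁⟩ : ∃ N₁ : ℕ, N₁ = ⌈4 * n * C * X / Real.log 2⌉₊ + 1 := ⟨_, rfl⟩
  have hN₁v : ∀ v : Pr K, 4 * n * C * X < N₁ * Real.log (Nv v) := by
    intro v
    have h1 : Real.log 2 ≤ Real.log (Nv v) := Real.log_le_log (by norm_num) (two_le_Nv v)
    have h2 : 0 < Real.log 2 := Real.log_pos (by norm_num)
    have h3 : 4 * n * C * X / Real.log 2 < N₁ := by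
      rw [hN₁]
      push_cast
      have := Nat.le_ceil (4 * n * C * X / Real.log 2)
      linarith
    rw [div_lt_iff₀ h2] at h3
    have h4 : (N₁ : ℝ) * Real.log 2 ≤ N₁ * Real.log (Nv v) :=
      mul_le_mul_of_nonneg_left h1 (Nat.cast_nonneg _)
    linarith
  obtain ⟨G₀, _, _, θ, hθ1, hθ2⟩ := hG f' N₁ (by rw [hN₁]; omega)
  obtain ⟨B₀, hB₀⟩ : ∃ B₀ : ℕ, B₀ = ∑ w : InfinitePlace K, ∑ i : Fin n, ∑ a ∈ Ac i,
    (ra (M w) (w.embedding (gen ϖ a ^ ((i : ℕ) + 1)))).natAbs := ⟨_, rfl⟩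
  have hB₀a : ∀ (w : InfinitePlace K) (i : Fin n), ∀ a ∈ Ac i,
      |ra (M w) (w.embedding (gen ϖ a ^ ((i : ℕ) + 1)))| ≤ B₀ := by
    intro w i a ha
    rw [Int.abs_eq_natAbs]
    have e1 : (ra (M w) (w.embedding (gen ϖ a ^ ((i : ℕ) + 1)))).natAbs ≤
        ∑ a ∈ Ac i, (ra (M w) (w.embedding (gen ϖ a ^ ((i : ℕ) + 1)))).natAbs :=
      Finset.single_le_sum
        (f := fun a => (ra (M w) (w.embedding (gen ϖ a ^ ((i : ℕ) + 1)))).natAbs)
        (fun _ _ => Nat.zero_le _) ha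
    have e2 : ∑ a ∈ Ac i, (ra (M w) (w.embedding (gen ϖ a ^ ((i : ℕ) + 1)))).natAbs ≤
        ∑ i : Fin n, ∑ a ∈ Ac i, (ra (M w) (w.embedding (gen ϖ a ^ ((i : ℕ) + 1)))).natAbs :=
      Finset.single_le_sum
        (f := fun i : Fin n => ∑ a ∈ Ac i,
          (ra (M w) (w.embedding (gen ϖ a ^ ((i : ℕ) + 1)))).natAbs)
        (fun _ _ => Nat.zero_le _) (Finset.mem_univ i)
    have e3 : ∑ i : Fin n, ∑ a ∈ Ac i,
          (ra (M w) (w.embedding (gen ϖ a ^ ((i : ℕ) + 1)))).natAbs ≤ B₀ := by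
      rw [hB₀]
      exact Finset.single_le_sum
        (f := fun w : InfinitePlace K => ∑ i : Fin n, ∑ a ∈ Ac i,
          (ra (M w) (w.embedding (gen ϖ a ^ ((i : ℕ) + 1)))).natAbs)
        (fun _ _ => Nat.zero_le _) (Finset.mem_univ w)
    exact_mod_cast e1.trans (e2.trans e3)
  obtain ⟨N₂, hN₂⟩ : ∃ N₂ : ℕ, N₂ = 2 * ((H + 1) * B₀) + 1 := ⟨_, rfl⟩
  have : NeZero N₂ := ⟨by rw [hN₂]; omega⟩
  have : ∀ w : W, NeZero (M w) := fun w => ⟨(Nat.one_le_iff_ne_zero.mp (hMpos w))⟩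
  have hmult0 : ∀ w : InfinitePlace K, (0 : ℝ) < (w.mult : ℝ) := fun w => by
    linarith [one_le_mult w]
  have hexp6 : 1 ≤ Real.exp (6 * ε₃ * X) := Real.one_le_exp (by positivity)
  have hRge : 1 ≤ Dm * Real.exp (6 * ε₃ * X) := by nlinarith
  have main := hH (Additive G₀ × ((w : W) → ZMod N₂ × ZMod (M w))) (Idl K) X
    (Dm * Real.exp (6 * ε₃ * X)) (lenM f V' σ) Ac (fun i a => gm hU θ W M N₂ i a) ν hX hRge hν hνX
    (by
      intro i
      have h1 := hDC X (ν i) (Ac i) hX (fun a ha =>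
        ⟨(rl_le_len a).trans (hAc1 i a ha).2.2, (hAc1 i a ha).2.2.trans (hνi i)⟩)
      refine h1.trans ?_
      have h2 : Real.exp (ν i + ε₃ * X) ≤ Real.exp (6 * ε₃ * X) * Real.exp (ν i) := by
        rw [← Real.exp_add]
        refine Real.exp_le_exp.mpr ?_
        have : 0 ≤ ε₃ * X := by positivity
        linarith
      calc DC * Real.exp (ν i + ε₃ * X) ≤ Dm * (Real.exp (6 * ε₃ * X) * Real.exp (ν i)) :=
            mul_le_mul hDmC h2 (by positivity) (by positivity)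
        _ = _ := by ring)
    (by
      intro i j h hh hνh Q₁ hQ₁
      have hb0 : 0 ≤ (h : ℝ) * ν j := mul_nonneg (Nat.cast_nonneg _) (hν j)
      set Q₂ : Finset ((Idl K × Idl K) × (Idl K × Idl K)) :=
        Q₁.image fun t => (t.1, (∑ m, t.2.1 m, ∑ m, t.2.2 m)) with hQ₂
      have hlensum : ∀ u : Fin h → Idl K, (∀ m, u m ∈ Ac j) →
          OffS S (∑ m, u m) ∧ Cop (∑ m, u m) f ∧ len (∑ m, u m) ≤ h * ν j := by
        intro u hu
        refine ⟨OffS.sum _ _ fun m _ => (hAc1 j _ (hu m)).1, Cop.sum _ _ _ fun m _ =>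
          (hAc1 j _ (hu m)).2.1, ?_⟩
        rw [len_sum]
        refine (Finset.sum_le_sum fun m _ => (hAc1 j _ (hu m)).2.2).trans ?_
        simp
      have hQ₂m : ∀ s ∈ Q₂, (OffS S s.1.1 ∧ Cop s.1.1 f ∧ len s.1.1 ≤ ν i) ∧
          (OffS S s.1.2 ∧ Cop s.1.2 f ∧ len s.1.2 ≤ ν i) ∧
          (OffS S s.2.1 ∧ Cop s.2.1 f ∧ len s.2.1 ≤ h * ν j) ∧
          (OffS S s.2.2 ∧ Cop s.2.2 f ∧ len s.2.2 ≤ h * ν j) ∧
          Cl f V' σ A1 (1 * (gen ϖ s.1.1 / gen ϖ s.1.2) ^ ((i : ℕ) + 1) *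
            (gen ϖ s.2.1 / gen ϖ s.2.2) ^ ((j : ℕ) + 1)) := by
        intro s hs
        obtain ⟨t, ht, rfl⟩ := Finset.mem_image.mp hs
        obtain ⟨ht1, ht2, ht3, ht4, ht5⟩ := hQ₁ t ht
        obtain ⟨u1, u2, u3⟩ := hAc1 i _ ht1
        obtain ⟨u1', u2', u3'⟩ := hAc1 i _ ht2
        obtain ⟨w1, w2, w3⟩ := hlensum _ ht3
        obtain ⟨w1', w2', w3'⟩ := hlensum _ ht4
        refine ⟨⟨u1, u2, u3⟩, ⟨u1', u2', u3'⟩, ⟨w1, w2, w3⟩, ⟨w1', w2', w3'⟩, ?_⟩
        obtain ⟨hθ, hinf⟩ := mom hU θ W M N₂ i j t.1.1 t.1.2 t.2.1 t.2.2 ht5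
        have hval : (((gu hU t.1.1 / gu hU t.1.2) ^ ((i : ℕ) + 1) *
            (gu hU (∑ m, t.2.1 m) / gu hU (∑ m, t.2.2 m)) ^ ((j : ℕ) + 1) : Kˣ) : K) =
            (gen ϖ t.1.1 / gen ϖ t.1.2) ^ ((i : ℕ) + 1) *
            (gen ϖ (∑ m, t.2.1 m) / gen ϖ (∑ m, t.2.2 m)) ^ ((j : ℕ) + 1) := by
          push_cast
          rfl
        have hθ2' := hθ2 _ hθ
        rw [hval] at hθ2'
        rw [one_mul]
        constructor
        · intro v hv
          have hvS : v ∉ S := fun h => hv (hf v h)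
          have hmv : m v = 0 := by
            by_contra h
            exact hvS (hmS v h).1
          have hf'v : f' v = f v := by rw [hf', hmv, add_zero]
          have h1 := (hθ2' v (by rw [hf'v]; exact hv) (by
            rw [map_mul, map_pow, map_pow, map_div₀, map_div₀, fv_gen_cop hU u1 u2 hvS hv,
              fv_gen_cop hU u1' u2' hvS hv, fv_gen_cop hU w1 w2 hvS hv,
              fv_gen_cop hU w1' w2' hvS hv]
            simp only [div_one, one_pow, mul_one, Real.log_one, abs_zero]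
            have h2 := log_Nv_pos v
            have h3 : (0 : ℝ) < N₁ := by
              rw [hN₁]
              positivity
            positivity)).2
          rwa [hf'v] at h1
        · intro v hv
          have hvf := Finset.mem_filter.mp hv
          rcases v with w | v
          · have hw : w ∈ W := by
              rw [hW, Finset.mem_filter]
              exact ⟨Finset.mem_univ _, hvf.1, hvf.2⟩
            obtain ⟨k1, k2⟩ := hinf w hw
            have hab : ∀ (x : Idl K) (u : Fin h → Idl K), x ∈ Ac i → (∀ m, u m ∈ Ac j) →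
                |ra (M w) (w.embedding (gen ϖ x ^ ((i : ℕ) + 1))) +
                  ∑ m, ra (M w) (w.embedding (gen ϖ (u m) ^ ((j : ℕ) + 1)))| ≤
                  (((H + 1) * B₀ : ℕ) : ℤ) := by
              intro x u hx hu
              refine (abs_add_le _ _).trans ?_
              have e1 := hB₀a w i x hx
              have e2 : |∑ m, ra (M w) (w.embedding (gen ϖ (u m) ^ ((j : ℕ) + 1)))| ≤ h * B₀ := by
                refine (Finset.abs_sum_le_sum_abs _ _).trans ?_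
                refine (Finset.sum_le_sum fun m _ => hB₀a w j _ (hu m)).trans ?_
                simp
              have e3 : (h : ℤ) * B₀ ≤ H * B₀ := by
                have : (h : ℤ) ≤ H := by exact_mod_cast hh
                exact mul_le_mul_of_nonneg_right this (Int.natCast_nonneg _)
              push_cast
              linarith
            have k3 := int_eq_of_zmod hN₂ (hab _ _ ht1 ht3) (hab _ _ ht2 ht4) k1
            have hne : ∀ a : Idl K, ∀ k : ℕ, w.embedding (gen ϖ a ^ k) ≠ 0 := by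
              intro a k
              rw [map_ne_zero]
              exact pow_ne_zero _ (gen_ne hU a)
            have k4 := (hCR h (M w) (hMpos w)
              (Fin.cons (w.embedding (gen ϖ t.1.1 ^ ((i : ℕ) + 1)))
                (fun m => w.embedding (gen ϖ (t.2.1 m) ^ ((j : ℕ) + 1))))
              (Fin.cons (w.embedding (gen ϖ t.1.2 ^ ((i : ℕ) + 1)))
                (fun m => w.embedding (gen ϖ (t.2.2 m) ^ ((j : ℕ) + 1))))
              (fun l => by refine Fin.cases ?_ (fun l => ?_) l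
                           · exact hne _ _
                           · exact hne _ _)
              (fun l => by refine Fin.cases ?_ (fun l => ?_) l
                           · exact hne _ _
                           · exact hne _ _)).1
              (by simpa only [Fin.sum_univ_succ, Fin.cons_zero, Fin.cons_succ] using k3)
              (by simpa only [Fin.sum_univ_succ, Fin.cons_zero, Fin.cons_succ] using k2)
            have k5 : (∏ l : Fin (h + 1), (Fin.cons (w.embedding (gen ϖ t.1.1 ^ ((i : ℕ) + 1)))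
                (fun m => w.embedding (gen ϖ (t.2.1 m) ^ ((j : ℕ) + 1))) : Fin (h + 1) → ℂ) l) /
                (∏ l : Fin (h + 1), (Fin.cons (w.embedding (gen ϖ t.1.2 ^ ((i : ℕ) + 1)))
                (fun m => w.embedding (gen ϖ (t.2.2 m) ^ ((j : ℕ) + 1))) : Fin (h + 1) → ℂ) l) =
                w.embedding ((gen ϖ t.1.1 / gen ϖ t.1.2) ^ ((i : ℕ) + 1) *
            (gen ϖ (∑ m, t.2.1 m) / gen ϖ (∑ m, t.2.2 m)) ^ ((j : ℕ) + 1)) := by
              rw [Fin.prod_univ_succ, Fin.prod_univ_succ]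
              simp only [Fin.cons_zero, Fin.cons_succ]
              rw [gen_sum, gen_sum, div_pow, div_pow, div_mul_div_comm, map_div₀, map_mul, map_mul,
                ← Finset.prod_pow, ← Finset.prod_pow, map_prod, map_prod]
            rw [k5] at k4
            have k6 : w ((gen ϖ t.1.1 / gen ϖ t.1.2) ^ ((i : ℕ) + 1) *
                (gen ϖ (∑ m, t.2.1 m) / gen ϖ (∑ m, t.2.2 m)) ^ ((j : ℕ) + 1) - 1) ≤
                (C1 : ℝ) / M w := by
              rw [← InfinitePlace.norm_embedding_eq, map_sub, map_one]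
              refine k4.trans ?_
              have : (CR h : ℝ) ≤ C1 := by exact_mod_cast hCR1 h hh
              have hMw : (0 : ℝ) < M w := by exact_mod_cast hMpos w
              gcongr
            have k7 := inf_c (hmult0 w) (mult_le_two w) (apply_nonneg w _) (hMW w hw).1 k6
            rw [av_inl, mt_inl]
            refine k7.trans (Real.exp_le_exp.mpr ?_)
            rw [hA1]
            linarith
          · have hvS : v ∈ S := (hmS v hvf.2).1
            have hfv : f v = 0 := hf v hvS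
            have hf'v : f' v = m v := by rw [hf', hfv, zero_add]
            have h1 := (hθ2' v (by rw [hf'v]; exact hvf.2)
              (lt_of_le_of_lt (size_quot hU u1 u1' w1 w1' u3 u3' w3 w3' hνh i.2 j.2 hvS)
                (hN₁v v))).2
            rw [hf'v] at h1
            rw [av_inr, mt_inr, Real.rpow_one]
            have hmv : m v = ⌊(σ (Sum.inr v) - A) / Real.log (Nv v)⌋₊ := by
              rw [hm, if_pos ⟨hvS, hvf.1⟩]
            refine h1.trans ((prime_b hmv).trans (Real.exp_le_exp.mpr ?_))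
            have := hLSv v hvS
            rw [hA1]
            linarith
      have h1 := fib (b := 2 * X) hε₃0 (hDF0 h) (hDF h) Q₁ Q₂
        (fun t ht => Finset.mem_image_of_mem _ ht) (fun s hs => by
          obtain ⟨_, _, h3, h4, _⟩ := hQ₂m s hs
          have := hν i
          exact ⟨by linarith [h3.2.2], by linarith [h4.2.2]⟩)
      have h2 := hDT i j (2 * X) (ν i) (h * ν j) f V' σ 1 Q₂ (hν i) (by linarith) hb0
        (by linarith [hν i]) hf (by linarith) (hV'V.trans hV) (fun v hv => hσ v (hV'V hv))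
        one_ne_zero hQ₂m
      refine h1.trans ((mul_le_mul_of_nonneg_left h2 (by positivity)).trans ?_)
      have h3 : (DF h * Real.exp (ε₃ * (2 * X))) ^ 2 * (DT i j * Real.exp (ε₃ * (2 * X)) *
          (Real.exp (ν i + h * ν j) * (1 + Real.exp (ν i + h * ν j - lenM f V' σ)))) =
          (DF h ^ 2 * DT i j) * Real.exp (6 * ε₃ * X) * Real.exp (ν i + h * ν j) *
          (1 + Real.exp (ν i + h * ν j - lenM f V' σ)) := by
        have h4 : Real.exp (6 * ε₃ * X) = Real.exp (ε₃ * (2 * X)) ^ 3 := by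
          rw [← Real.exp_nat_mul]
          congr 1
          push_cast
          ring
        rw [h4]
        ring
      rw [h3]
      have h5 := hDmT i j h hh
      gcongr)
  -- the errors
  obtain ⟨y₀u, hy₀u⟩ : ∃ y : Kˣ, (y : K) = y₀ := ⟨Units.mk0 y₀ hy₀, rfl⟩
  have hdev : ∀ t : (Fin n → Idl K) × (Fin n → Idl K), ∃ e : W → ℤ × ℤ, t ∈ Q →
      (∀ w, |(e w).1| ≤ (C2 : ℤ) ∧ |(e w).2| ≤ (C2 : ℤ)) ∧
      ∑ i : Fin n, gm hU θ W M N₂ i (t.1 i) = sh θ W M N₂ y₀u e +
        ∑ i : Fin n, gm hU θ W M N₂ i (t.2 i) := by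
    intro t
    by_cases ht : t ∈ Q
    swap
    · exact ⟨fun _ => 0, fun h => absurd h ht⟩
    obtain ⟨ht1, ht2, hcl1, hcl2⟩ := hQ t ht
    have hval : ((y₀u * ∏ i, (gu hU (t.1 i) / gu hU (t.2 i)) ^ ((i : ℕ) + 1) : Kˣ) : K) =
        y₀ * ∏ i, (gen ϖ (t.1 i) / gen ϖ (t.2 i)) ^ ((i : ℕ) + 1) := by
      push_cast
      rw [hy₀u]
      rfl
    have h1 : θ (y₀u * ∏ i, (gu hU (t.1 i) / gu hU (t.2 i)) ^ ((i : ℕ) + 1)) = 1 := by
      apply hθ1
      intro v hv
      rw [hval]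
      rw [hf'] at hv ⊢
      by_cases hfv : f v = 0
      · have hmv : m v ≠ 0 := by
          intro h
          exact hv (by rw [hfv, h])
        obtain ⟨hvS, hvV⟩ := hmS v hmv
        have h2 := hcl2 (Sum.inr v) hvV
        rw [av_inr, mt_inr, Real.rpow_one] at h2
        rw [hfv, zero_add]
        refine h2.trans (prime_a ?_ hmv)
        rw [hm, if_pos ⟨hvS, hvV⟩]
      · have hvS : v ∉ S := fun h => hfv (hf v h)
        have hmv : m v = 0 := by
          by_contra h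
          exact hvS (hmS v h).1
        rw [hmv, add_zero]
        exact hcl1 v hfv
    obtain ⟨e, he1, he2⟩ := dev hU θ W M N₂ (c := (C2 : ℤ)) t.1 t.2 y₀u h1 (by
      intro w hw
      have hwf := (Finset.mem_filter.mp hw).2
      have h2 := hcl2 (Sum.inl w) hwf.1
      rw [av_inl, mt_inl] at h2
      have h3 := inf_b (one_le_mult w) hA0 (apply_nonneg w _) (hMpos w) (hMW w hw).2 h2
      have hne : ∀ a : Idl K, ∀ k : ℕ, w.embedding (gen ϖ a ^ k) ≠ 0 := by
        intro a k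
        rw [map_ne_zero]
        exact pow_ne_zero _ (gen_ne hU a)
      have h4 := (hC2 (M w) (hMpos w) (fun i => w.embedding (gen ϖ (t.1 i) ^ ((i : ℕ) + 1)))
        (fun i => w.embedding (gen ϖ (t.2 i) ^ ((i : ℕ) + 1))) (fun i => hne _ _)
        (fun i => hne _ _)).2 (w.embedding (y₀u : K)) (by
          rw [map_ne_zero]
          exact y₀u.ne_zero) (by
          refine le_trans ?_ (hMW w hw).1
          have e1 : (4 : ℝ) = Real.exp (Real.log 4) := (Real.exp_log (by norm_num)).symm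
          have e2 : 2 * (2 * Real.exp A) = Real.exp (Real.log 4 + A) := by
            rw [Real.exp_add, ← e1]
            ring
          rw [e2]
          refine Real.exp_le_exp.mpr ?_
          rw [le_div_iff₀ (hmult0 w)]
          have e3 := hwf.2
          rw [hc₀] at e3
          have e4 := mult_le_two w
          nlinarith) (by
          rw [← map_prod, ← map_prod, ← map_div₀, ← map_mul, ← map_one w.embedding, ← map_sub,
            InfinitePlace.norm_embedding_eq, hy₀u, ← Finset.prod_div_distrib]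
          simp only [← div_pow]
          exact h3)
      exact h4)
    exact ⟨e, fun _ => ⟨he1, he2⟩⟩
  choose er her using hdev
  have hQcard : (Q.card : ℝ) ≤ ((2 * C2 + 1 : ℕ) : ℝ) ^ (2 * Fintype.card (InfinitePlace K)) *
      ((Dm * Real.exp (6 * ε₃ * X)) ^ (2 * n + 1) * Real.exp (ε / 2 * X + ∑ i, ν i) *
        (1 + Real.exp (3 / 2 * ∑ i, ν i - lenM f V' σ))) := by
    set T : Finset (W → ℤ × ℤ) := Fintype.piFinset fun _ =>
      (Finset.Icc (-(C2 : ℤ)) C2) ×ˢ (Finset.Icc (-(C2 : ℤ)) C2) with hT'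
    have hmap : ∀ t ∈ Q, er t ∈ T := by
      intro t ht
      rw [hT', Fintype.mem_piFinset]
      intro w
      rw [Finset.mem_product, Finset.mem_Icc, Finset.mem_Icc]
      obtain ⟨h1, h2⟩ := (her t ht).1 w
      exact ⟨abs_le.mp h1, abs_le.mp h2⟩
    have h1 : (Q.card : ℝ) = ∑ e ∈ T, ((Q.filter fun t => er t = e).card : ℝ) := by
      exact_mod_cast Finset.card_eq_sum_card_fiberwise (f := er) hmap
    rw [h1]
    have h2 : ∀ e ∈ T, ((Q.filter fun t => er t = e).card : ℝ) ≤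
        (Dm * Real.exp (6 * ε₃ * X)) ^ (2 * n + 1) * Real.exp (ε / 2 * X + ∑ i, ν i) *
        (1 + Real.exp (3 / 2 * ∑ i, ν i - lenM f V' σ)) := by
      intro e _
      refine main (sh θ W M N₂ y₀u e) (Q.filter fun t => er t = e) ?_
      intro t ht
      obtain ⟨htQ, hte⟩ := Finset.mem_filter.mp ht
      refine ⟨fun i => ⟨?_, ?_⟩, ?_⟩
      · rw [hAc]
        exact Finset.mem_union_left _ (Finset.mem_image_of_mem (fun t => t.1 i) htQ)
      · rw [hAc]
        exact Finset.mem_union_right _ (Finset.mem_image_of_mem (fun t => t.2 i) htQ)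
      · rw [← hte]
        exact (her t htQ).2
    refine (Finset.sum_le_sum h2).trans ?_
    rw [Finset.sum_const, nsmul_eq_mul]
    refine mul_le_mul_of_nonneg_right ?_ (by positivity)
    have h3 : T.card ≤ (2 * C2 + 1) ^ (2 * Fintype.card (InfinitePlace K)) := by
      rw [hT', Fintype.card_piFinset, Finset.prod_const, Finset.card_product, Int.card_Icc,
        Finset.card_univ, Fintype.card_coe, pow_mul]
      have h4 : ((C2 : ℤ) + 1 - -(C2 : ℤ)).toNat = 2 * C2 + 1 := by omega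
      rw [h4, ← sq]
      refine Nat.pow_le_pow_right (by positivity) ?_
      exact Finset.card_le_univ W
    exact_mod_cast h3
  refine hQcard.trans ?_
  have hfin : 1 + Real.exp (3 / 2 * ∑ i, ν i - lenM f V' σ) ≤
      Real.exp K0 * (1 + Real.exp (3 / 2 * ∑ i, ν i - lenM f V σ)) := by
    have h1 : Real.exp (3 / 2 * ∑ i, ν i - lenM f V' σ) ≤
        Real.exp K0 * Real.exp (3 / 2 * ∑ i, ν i - lenM f V σ) := by
      rw [← Real.exp_add]
      exact Real.exp_le_exp.mpr (by linarith)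
    have h2 : 1 ≤ Real.exp K0 := Real.one_le_exp hK00
    linarith
  have hpow : (Dm * Real.exp (6 * ε₃ * X)) ^ (2 * n + 1) * Real.exp (ε / 2 * X + ∑ i, ν i) =
      Dm ^ (2 * n + 1) * Real.exp (ε * X + ∑ i, ν i) := by
    rw [mul_pow, ← Real.exp_nat_mul, mul_assoc, ← Real.exp_add]
    congr 2
    rw [hε₃]
    push_cast
    field_simp
    ring
  rw [hpow]
  calc ((2 * C2 + 1 : ℕ) : ℝ) ^ (2 * Fintype.card (InfinitePlace K)) *
        (Dm ^ (2 * n + 1) * Real.exp (ε * X + ∑ i, ν i) *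
          (1 + Real.exp (3 / 2 * ∑ i, ν i - lenM f V' σ))) ≤
      ((2 * C2 + 1 : ℕ) : ℝ) ^ (2 * Fintype.card (InfinitePlace K)) *
        (Dm ^ (2 * n + 1) * Real.exp (ε * X + ∑ i, ν i) *
          (Real.exp K0 * (1 + Real.exp (3 / 2 * ∑ i, ν i - lenM f V σ)))) := by
        gcongr
    _ = _ := by
        push_cast
        ring

end Main

end W54.AK
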